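import Pool.Agent.H92.Beurling

set_option autoImplicit false
open MeasureTheory Filter Topology

namespace Pool.Agent.Results.MP_c984ee_an.Eigenvalue

/-- the closed square with centre `c`, side `2r` and sides parallel to `u` and `iu` (`‖u‖ = 1`) -/
def square (c u : ℂ) (r : ℝ) : Set ℂ := {z | |((z - c) / u).re| ≤ r ∧ |((z - c) / u).im| ≤ r}

/-- Muckenhoupt's class `A_p` on `ℂ`, the supremum taken over all squares -/
def IsAp (p : ℝ) (w : ℂ → ℝ) : Prop :=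
  LocallyIntegrable w volume ∧ (∀ᵐ z : ℂ, 0 < w z) ∧
  ∃ C : ℝ, ∀ (c u : ℂ) (r : ℝ), ‖u‖ = 1 → 0 < r →
    ((∫⁻ z in square c u r, ENNReal.ofReal (w z)) / volume (square c u r)) *
      ((∫⁻ z in square c u r, ENNReal.ofReal (w z ^ (-1 / (p - 1)))) / volume (square c u r)) ^ (p - 1) ≤
        ENNReal.ofReal C

theorem result : ∀ p : ℝ, 1 < p → ∃ w : ℂ → ℝ, IsAp p w ∧ ∃ f : ℂ → ℂ, Continuous f ∧
    ∫⁻ z, ‖f z‖ₑ ^ p * ENNReal.ofReal (w z) < ⊤ ∧ ¬ f =ᵐ[volume] 0 ∧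
    ∀ z : ℂ, (∀ ε : ℝ, 0 < ε → IntegrableOn (fun ζ => f ζ / (z - ζ) ^ 2) {ζ | ε < ‖z - ζ‖}) ∧
      Tendsto (fun ε : ℝ => -(1 / Real.pi : ℂ) * ∫ ζ in {ζ | ε < ‖z - ζ‖}, f ζ / (z - ζ) ^ 2)
        (𝓝[>] 0) (𝓝 (f z)) := by
  intro p hp
  obtain ⟨C, hC⟩ := Pool.Agent.H92.Beurling.Ap hp
  refine ⟨_, ⟨Pool.Agent.H92.Beurling.W_cont.locallyIntegrable,
    Eventually.of_forall Pool.Agent.H92.Beurling.W_pos, C, fun c u r hu hr => ?_⟩, _,
    Pool.Agent.H92.Beurling.F_cont, Pool.Agent.H92.Beurling.F_mem hp.le, Pool.Agent.H92.Beurling.F_ne,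
    fun z => ⟨fun ε hε => (Pool.Agent.H92.Beurling.trunc hε z).1, Pool.Agent.H92.Beurling.pv z⟩⟩
  rw [← setLAverage_eq, ← setLAverage_eq]
  have hn : ∀ z : ℂ, ‖(z - c) / u‖ = ‖z - c‖ := fun z => by rw [norm_div, hu, div_one]
  refine hC _ c r hr ?_ (fun z hz => ?_) (fun z hz => ?_)
  · exact (measurableSet_le (f := fun z : ℂ => |((z - c) / u).re|) (by fun_prop) measurable_const).inter
      (measurableSet_le (f := fun z : ℂ => |((z - c) / u).im|) (by fun_prop) measurable_const)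
  · have := mem_ball_iff_norm.1 hz
    rw [← hn] at this
    exact ⟨(Complex.abs_re_le_norm _).trans this.le, (Complex.abs_im_le_norm _).trans this.le⟩
  · rw [mem_ball_iff_norm, ← hn, Complex.norm_eq_sqrt_sq_add_sq, Real.sqrt_lt' (by positivity)]
    nlinarith [sq_abs ((z - c) / u).re, sq_abs ((z - c) / u).im, hz.1, hz.2,
      abs_nonneg ((z - c) / u).re, abs_nonneg ((z - c) / u).im]

end Pool.Agent.Results.MP_c984ee_an.Eigenvalue
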